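import Pool.Agent.Lib.MP_5c318e_ag.R.Core
import Pool.Agent.Lib.MP_5c318e_ag.V.Lev

/-! Rank drop on a boundary divisor with non scalar monodromy. -/

set_option autoImplicit false

namespace Pool.Agent.Lib.MP_5c318e_ag.R

open Filter Topology Metric Matrix Complex Pool.Agent.Lib.MP_5c318e_ag.V
open scoped ComplexConjugate ContDiff

noncomputable section

variable {E n : Type*} [NormedAddCommGroup E] [NormedSpace ℂ E] [Fintype n]

theorem sm_of_an {f : E → ℂ} {x : E} (h : AnalyticAt ℂ f x) : Sm f x :=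
  (h.contDiffAt (n := ∞)).restrict_scalars ℝ

theorem an_apply {f : E → n → ℂ} {x : E} (h : AnalyticAt ℂ f x) (i : n) :
    AnalyticAt ℂ (fun y => f y i) x :=
  ((ContinuousLinearMap.proj (R := ℂ) (φ := fun _ : n => ℂ) i).analyticAt _).comp h

theorem fderiv_apply' {f : E → n → ℂ} {x : E} (h : DifferentiableAt ℂ f x) (ξ : E) (i : n) :
    fderiv ℂ (fun y => f y i) x ξ = fderiv ℂ f x ξ i :=
  dir_clm (ContinuousLinearMap.proj (R := ℂ) (φ := fun _ : n => ℂ) i) h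

theorem sm_dot {f g : E → n → ℂ} {x : E} (hf : AnalyticAt ℂ f x) (hg : AnalyticAt ℂ g x) :
    Sm (fun y => star (f y) ⬝ᵥ g y) x :=
  ContDiffAt.sum fun i _ => (sm_of_an (an_apply hf i)).conj.mul (sm_of_an (an_apply hg i))

theorem der_dot {f g : E → n → ℂ} {x : E} (hf : AnalyticAt ℂ f x) (hg : AnalyticAt ℂ g x)
    (c : ℂ) (ξ : E) : der c ξ (fun y => star (f y) ⬝ᵥ g y) x =
      ∑ i, (conj (der (conj c) ξ (fun y => f y i) x) * g x i +
        conj (f x i) * der c ξ (fun y => g y i) x) := by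
  have e : (fun y => star (f y) ⬝ᵥ g y) = fun y => ∑ i, conj (f y i) * g y i := rfl
  rw [e, der_sum _ fun i _ =>
    ((sm_of_an (an_apply hf i)).conj.mul (sm_of_an (an_apply hg i))).differentiableAt (by simp)]
  refine Finset.sum_congr rfl fun i _ => ?_
  rw [der_mul (sm_of_an (an_apply hf i)).conj.diff (sm_of_an (an_apply hg i)).diff,
    der_conj (sm_of_an (an_apply hf i)).diff]

theorem d_dot {f g : E → n → ℂ} {x : E} (hf : AnalyticAt ℂ f x) (hg : AnalyticAt ℂ g x) (ξ : E) :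
    der (-I) ξ (fun y => star (f y) ⬝ᵥ g y) x = star (f x) ⬝ᵥ fderiv ℂ g x ξ := by
  rw [der_dot hf hg]
  refine Finset.sum_congr rfl fun i _ => ?_
  have e : conj (-I) = I := by simp
  rw [e, dbar_holo (an_apply hf i).differentiableAt, d_holo (an_apply hg i).differentiableAt,
    fderiv_apply' hg.differentiableAt]
  simp

theorem dbar_dot {f g : E → n → ℂ} {x : E} (hf : AnalyticAt ℂ f x) (hg : AnalyticAt ℂ g x)
    (ξ : E) : der I ξ (fun y => star (f y) ⬝ᵥ g y) x = star (fderiv ℂ f x ξ) ⬝ᵥ g x := by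
  rw [der_dot hf hg]
  refine Finset.sum_congr rfl fun i _ => ?_
  have e : conj I = -I := by simp
  rw [e, dbar_holo (an_apply hg i).differentiableAt, d_holo (an_apply hf i).differentiableAt,
    fderiv_apply' hf.differentiableAt]
  simp

/-- Levi form of the logarithm of a hermitian expression in holomorphic maps -/
theorem lev_log_dot {f g : E → n → ℂ} {x : E} (hf : AnalyticAt ℂ f x) (hg : AnalyticAt ℂ g x)
    {c : E → ℝ} (hc : ∀ᶠ y in 𝓝 x, (c y : ℂ) = star (f y) ⬝ᵥ g y) (h0 : c x ≠ 0) (ξ : E) :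
    (lev (fun y => Real.log (c y)) x ξ : ℂ) =
      (c x * (star (fderiv ℂ f x ξ) ⬝ᵥ fderiv ℂ g x ξ) -
        (star (f x) ⬝ᵥ fderiv ℂ g x ξ) * (star (fderiv ℂ f x ξ) ⬝ᵥ g x)) / (c x) ^ 2 := by
  have hc' : (fun y => (c y : ℂ)) =ᶠ[𝓝 x] fun y => star (f y) ⬝ᵥ g y := hc
  have hs : ContDiffAt ℝ ∞ c x :=
    (sm_dot hf hg).re.congr_of_eventuallyEq (hc.mono fun y hy => congrArg re hy)
  have h1 : der (-I) ξ (fun y => (c y : ℂ)) x = star (f x) ⬝ᵥ fderiv ℂ g x ξ := by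
    rw [der_congr hc', d_dot hf hg]
  have h2 : conj (der (-I) ξ (fun y => (c y : ℂ)) x) = star (fderiv ℂ f x ξ) ⬝ᵥ g x := by
    have := der_conj (c := I) (ξ := ξ) (sm_ofReal hs).diff
    simp only [conj_ofReal, conj_I] at this
    rw [← this, der_congr hc', dbar_dot hf hg]
  have h3 : (lev c x ξ : ℂ) = star (fderiv ℂ f x ξ) ⬝ᵥ fderiv ℂ g x ξ := by
    have e : der (-I) ξ (fun y => (c y : ℂ)) =ᶠ[𝓝 x] fun y => star (f y) ⬝ᵥ dir ξ g y := by
      filter_upwards [der_congr_ev (c := -I) (ξ := ξ) hc', hf.eventually_analyticAt,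
        hg.eventually_analyticAt] with y k1 k2 k3
      rw [k1, d_dot k2 k3]
      rfl
    rw [lev_eq hs, der_congr e, dbar_dot hf (dir_an hg)]
    rfl
  have e1 : deriv Real.log = fun t => t⁻¹ := funext Real.deriv_log
  rw [lev_comp_real (χ := Real.log) (Real.contDiffAt_log.mpr h0) (cd2 hs), e1, deriv_inv]
  push_cast
  rw [h3, ← Complex.mul_conj', h2, h1]
  have h4 : (c x : ℂ) ≠ 0 := ofReal_ne_zero.mpr h0
  field_simp
  ring

/-- a matrix as a continuous linear map -/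
def mv (A : Matrix n n ℂ) : (n → ℂ) →L[ℂ] (n → ℂ) := LinearMap.toContinuousLinearMap A.mulVecLin

@[simp] theorem mv_apply (A : Matrix n n ℂ) (v : n → ℂ) : mv A v = A *ᵥ v := rfl

variable [DecidableEq n]

theorem nil_inj {N : Matrix n n ℂ} (hN : IsNilpotent N) {a : ℂ} (ha : a ≠ 0) (v : n → ℂ)
    (h : a • v + N *ᵥ v = 0) : v = 0 := by
  obtain ⟨m, hm⟩ := hN
  have h1 : N *ᵥ v = (-a) • v := by
    rw [neg_smul]
    exact eq_neg_of_add_eq_zero_right h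
  have h2 : ∀ j : ℕ, (N ^ j) *ᵥ v = (-a) ^ j • v := by
    intro j
    induction j with
    | zero => simp
    | succ j ih => rw [pow_succ', ← mulVec_mulVec, ih, mulVec_smul, h1, smul_smul, pow_succ]
  have h3 := h2 m
  rw [hm, zero_mulVec] at h3
  exact (smul_eq_zero.mp h3.symm).resolve_left (pow_ne_zero _ (neg_ne_zero.mpr ha))

/-- RANK DROP, relative form: the rank hypothesis is used only for directions in `L` -/
theorem rank_drop_rel' {F : ℂ × E → n → ℂ} {O : Set (ℂ × E)} (hO : IsOpen O) (hOc : IsPreconnected O)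
    (hF : AnalyticOnNhd ℂ F O) {c0 : ℂ} (hc0 : c0 ≠ 0) {N A R : Matrix n n ℂ}
    (hN : IsNilpotent N) (hA : A * N = N * A) {ν : ℕ} (L : Submodule ℂ E)
    (hrk : ∀ p ∈ O, p.1 ≠ 0 → ∀ e : Fin ν → E, (∀ i, e i ∈ L) → LinearIndependent ℂ (fam F e p) →
      lgd c0 (mv N) F p ∈ Submodule.span ℂ (Set.range (fam F e p)))
    (hne : ∃ p ∈ O, N *ᵥ F p ≠ 0 ∨ A *ᵥ F p ≠ 0) {s0 : E} (h0 : (0, s0) ∈ O)
    (hA0 : ∀ᶠ s in 𝓝 s0, A *ᵥ F (0, s) = 0) {c : E → ℝ}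
    (hc : ∀ᶠ s in 𝓝 s0, (c s : ℂ) = star (F (0, s)) ⬝ᵥ R *ᵥ F (0, s)) (hpos : c s0 ≠ 0)
    (hR : ∀ᶠ s in 𝓝 s0, star (F (0, s)) ⬝ᵥ R *ᵥ N *ᵥ F (0, s) = 0)
    (hL : ν ≤ Module.finrank ℂ L) :
    ∃ ξ ∈ L, ξ ≠ 0 ∧ lev (fun s => Real.log (c s)) s0 ξ = 0 := by
  by_contra hcon
  push Not at hcon
  obtain ⟨e', he'⟩ := exists_linearIndependent_of_le_finrank hL
  let e : Fin ν → E := fun i => e' i
  have he : LinearIndependent ℂ e := he'.map' L.subtype (Submodule.ker_subtype L)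
  let F0 : E → n → ℂ := fun s => F (0, s)
  have hF0 : AnalyticAt ℂ F0 s0 :=
    (hF _ h0).comp_of_eq (analyticAt_const.prod analyticAt_id) rfl
  have hd : ∀ ξ, fderiv ℂ F0 s0 ξ = dir (0, ξ) F (0, s0) :=
    slice_fder (hF _ h0).differentiableAt
  have hg : ∀ B : Matrix n n ℂ, AnalyticAt ℂ (fun s => B *ᵥ F0 s) s0 := fun B =>
    ((mv B).analyticAt _).comp hF0
  have hgd : ∀ (B : Matrix n n ℂ) ξ, fderiv ℂ (fun s => B *ᵥ F0 s) s0 ξ = B *ᵥ fderiv ℂ F0 s0 ξ :=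
    fun B ξ => dir_clm (mv B) hF0.differentiableAt
  let π : (n → ℂ) →L[ℂ] (Option (Fin ν) → ℂ) := LinearMap.toContinuousLinearMap
    (LinearMap.pi fun j => (dotProductBilin ℂ ℂ (star (fam F e (0, s0) j))).comp R.mulVecLin)
  have hπ : ∀ v j, π v j = star (fam F e (0, s0) j) ⬝ᵥ R *ᵥ v := fun v j => rfl
  have hc1 : (c s0 : ℂ) = star (F0 s0) ⬝ᵥ R *ᵥ F0 s0 := hc.self_of_nhds
  have hinj : ∀ x : Option (Fin ν) → ℂ, π (∑ j, x j • fam F e (0, s0) j) = 0 → x = 0 := by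
    intro x hx
    let ξ : E := ∑ i, x (some i) • e i
    have e1 : fderiv ℂ F0 s0 ξ = ∑ i, x (some i) • fam F e (0, s0) (some i) := by
      simp only [ξ, map_sum, map_smul, fam, ← hd]
    have e2 : ∑ j, x j • fam F e (0, s0) j = x none • F0 s0 + fderiv ℂ F0 s0 ξ := by
      rw [Fintype.sum_option, e1]
      rfl
    rw [e2] at hx
    have k0 : star (F0 s0) ⬝ᵥ R *ᵥ (x none • F0 s0 + fderiv ℂ F0 s0 ξ) = 0 := congrFun hx none
    have k1 : star (fderiv ℂ F0 s0 ξ) ⬝ᵥ R *ᵥ (x none • F0 s0 + fderiv ℂ F0 s0 ξ) = 0 := by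
      conv_lhs => arg 1; rw [e1]
      rw [star_sum, sum_dotProduct]
      refine Finset.sum_eq_zero fun i _ => ?_
      rw [star_smul, smul_dotProduct, ← hπ, hx]
      simp
    rw [mulVec_add, dotProduct_add, mulVec_smul, dotProduct_smul, smul_eq_mul] at k0 k1
    rw [← hc1] at k0
    have k2 := lev_log_dot hF0 (hg R) hc hpos ξ
    rw [hgd, eq_neg_of_add_eq_zero_right k0, eq_neg_of_add_eq_zero_right k1] at k2
    have k3 : lev (fun s => Real.log (c s)) s0 ξ = 0 := by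
      apply ofReal_injective
      rw [k2]
      simp only [ofReal_zero]
      ring
    have k4 : ξ = 0 := by
      by_contra hξ
      exact hcon ξ (L.sum_mem fun i _ => L.smul_mem _ (e' i).2) hξ k3
    have k5 := Fintype.linearIndependent_iff.mp he (fun i => x (some i)) k4
    rw [k4, map_zero, mulVec_zero, dotProduct_zero, add_zero] at k0
    funext j
    cases j with
    | none => exact (mul_eq_zero.mp k0).resolve_right (ofReal_ne_zero.mpr hpos)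
    | some i => exact k5 i
  obtain ⟨r, hr, hpol⟩ := polar hF0 (hg (R * N)) (by simpa only [mulVec_mulVec] using hR)
  have hπ0 : ∀ᶠ t in 𝓝 s0, π (mv N (F (0, t))) = 0 := by
    filter_upwards [ball_mem_nhds s0 hr] with t ht
    funext j
    rw [hπ, mv_apply, mulVec_mulVec]
    cases j with
    | none => exact hpol s0 (mem_ball_self hr) t ht
    | some i =>
      have h1 := dbar_dot hF0 (analyticAt_const (v := (R * N) *ᵥ F0 t)) (e i)
      have h2 : (fun s => star (F0 s) ⬝ᵥ (R * N) *ᵥ F0 t) =ᶠ[𝓝 s0] fun _ => 0 :=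
        eventually_of_mem (ball_mem_nhds s0 hr) fun s hs => hpol s hs t ht
      rw [der_congr h2, der_const, hd] at h1
      exact h1.symm
  obtain ⟨c1, c2⟩ := drop_core hO hF h0 c0 (mv N)
    (fun k v => nil_inj hN (mul_ne_zero hc0 (Nat.cast_ne_zero.mpr (Nat.succ_ne_zero k))) v) e π
    hinj hπ0 (fun p hp hz => hrk p hp hz e fun i => (e' i).2)
  have fin : ∀ B : Matrix n n ℂ, B * N = N * B → (∀ᶠ s in 𝓝 s0, B *ᵥ F (0, s) = 0) →
      ∀ p ∈ O, B *ᵥ F p = 0 := by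
    intro B hB hB0 p hp
    have h1 : AnalyticOnNhd ℂ (fun q => mv B (F q)) O := fun q hq =>
      ((mv B).analyticAt _).comp (hF q hq)
    exact h1.eqOn_zero_of_preconnected_of_eventuallyEq_zero hOc h0
      (c2 (mv B) (fun v => by simp only [mv_apply, mulVec_mulVec, hB]) hB0) hp
  obtain ⟨p, hp, h1 | h1⟩ := hne
  · exact h1 (fin N rfl c1 p hp)
  · exact h1 (fin A hA hA0 p hp)

/-- RANK DROP, weakest form of the rank hypothesis -/
theorem rank_drop' {F : ℂ × E → n → ℂ} {O : Set (ℂ × E)} (hO : IsOpen O) (hOc : IsPreconnected O)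
    (hF : AnalyticOnNhd ℂ F O) {c0 : ℂ} (hc0 : c0 ≠ 0) {N A R : Matrix n n ℂ}
    (hN : IsNilpotent N) (hA : A * N = N * A) {ν : ℕ}
    (hrk : ∀ p ∈ O, p.1 ≠ 0 → ∀ e : Fin ν → E, LinearIndependent ℂ (fam F e p) →
      lgd c0 (mv N) F p ∈ Submodule.span ℂ (Set.range (fam F e p)))
    (hne : ∃ p ∈ O, N *ᵥ F p ≠ 0 ∨ A *ᵥ F p ≠ 0) {s0 : E} (h0 : (0, s0) ∈ O)
    (hA0 : ∀ᶠ s in 𝓝 s0, A *ᵥ F (0, s) = 0) {c : E → ℝ}
    (hc : ∀ᶠ s in 𝓝 s0, (c s : ℂ) = star (F (0, s)) ⬝ᵥ R *ᵥ F (0, s)) (hpos : c s0 ≠ 0)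
    (hR : ∀ᶠ s in 𝓝 s0, star (F (0, s)) ⬝ᵥ R *ᵥ N *ᵥ F (0, s) = 0)
    (L : Submodule ℂ E) (hL : ν ≤ Module.finrank ℂ L) :
    ∃ ξ ∈ L, ξ ≠ 0 ∧ lev (fun s => Real.log (c s)) s0 ξ = 0 :=
  rank_drop_rel' hO hOc hF hc0 hN hA L (fun p hp hz e _ => hrk p hp hz e) hne h0 hA0 hc hpos hR hL

omit [Fintype n] [DecidableEq n] in
/-- a rank bound gives the hypothesis `hrk` -/
theorem mem_span_of_finrank {V W : Type*} [AddCommGroup V] [Module ℂ V] [AddCommGroup W]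
    [Module ℂ W] [FiniteDimensional ℂ W] {ν : ℕ} {v : Option (Fin ν) → V}
    (hv : LinearIndependent ℂ v) {g : V} (U : V →ₗ[ℂ] W) (hU : Function.Injective U)
    (S : Submodule ℂ W) (hS : Module.finrank ℂ S ≤ ν + 1) (h1 : ∀ j, U (v j) ∈ S) (h2 : U g ∈ S) :
    g ∈ Submodule.span ℂ (Set.range v) := by
  have h3 : LinearIndependent ℂ (U ∘ v) := hv.map' U (LinearMap.ker_eq_bot.mpr hU)
  have h4 : Submodule.span ℂ (Set.range (U ∘ v)) = S := by
    refine Submodule.eq_of_le_of_finrank_le (Submodule.span_le.mpr ?_) ?_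
    · rintro _ ⟨j, rfl⟩
      exact h1 j
    · rw [finrank_span_eq_card h3]
      simpa using hS
  rw [← h4, Set.range_comp, ← Submodule.map_span] at h2
  obtain ⟨g', k1, k2⟩ := h2
  rwa [← hU k2]

omit [DecidableEq n] in
/-- relative form of the rank bound for the multivalued section `om (w, s) = U w (F (g w, s))`, where
`U' = U (N + κ)` and `g' = c g` -/
theorem hrk_of_cover_rel {F om : ℂ × E → n → ℂ} {c0 κ w : ℂ} {s : E} {N : (n → ℂ) →L[ℂ] (n → ℂ)}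
    {U : ℂ → (n → ℂ) →L[ℂ] (n → ℂ)} {g : ℂ → ℂ} (hF : DifferentiableAt ℂ F (g w, s))
    (hg : HasDerivAt g (c0 * g w) w) (hU : HasDerivAt U ((U w).comp N + κ • U w) w)
    (hU0 : Function.Injective (U w)) (hom : om =ᶠ[𝓝 (w, s)] fun q => U q.1 (F (g q.1, q.2)))
    {ν : ℕ} (S : Submodule ℂ (n → ℂ)) (hrk : Module.finrank ℂ S ≤ ν + 1) (m0 : om (w, s) ∈ S)
    (m1 : fderiv ℂ om (w, s) (1, 0) ∈ S) (e : Fin ν → E)
    (m2 : ∀ i, fderiv ℂ om (w, s) (0, e i) ∈ S) (he : LinearIndependent ℂ (fam F e (g w, s))) :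
    lgd c0 N F (g w, s) ∈ Submodule.span ℂ (Set.range (fam F e (g w, s))) := by
  have d1 : HasFDerivAt (fun q : ℂ × E => (g q.1, q.2))
      (((ContinuousLinearMap.toSpanSingleton ℂ (c0 * g w)).comp
        (ContinuousLinearMap.fst ℂ ℂ E)).prod (ContinuousLinearMap.snd ℂ ℂ E)) (w, s) :=
    (hg.hasFDerivAt.comp (w, s) hasFDerivAt_fst).prodMk hasFDerivAt_snd
  have d2 := HasFDerivAt.comp (g := F) (w, s) hF.hasFDerivAt d1
  have d3 := HasFDerivAt.comp (g := U) (f := Prod.fst) ((w, s) : ℂ × E) hU.hasFDerivAt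
    (hasFDerivAt_fst (𝕜 := ℂ))
  have d4 := (d3.clm_apply d2).fderiv
  have d5 : fderiv ℂ om (w, s) = _ := hom.fderiv_eq.trans d4
  have w0 : om (w, s) = U w (F (g w, s)) := hom.self_of_nhds
  rw [w0] at m0
  refine mem_span_of_finrank he (U w : (n → ℂ) →ₗ[ℂ] (n → ℂ)) hU0 _ hrk (fun j => ?_) ?_
  · cases j with
    | none => exact m0
    | some i =>
      have := m2 i
      rw [d5] at this
      simpa [fam, dir] using this
  · have e1 : U w (lgd c0 N F (g w, s)) = fderiv ℂ om (w, s) (1, 0) - κ • U w (F (g w, s)) := by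
      have e2 : ((c0 * g w, 0) : ℂ × E) = (c0 * g w) • ((1, 0) : ℂ × E) := by simp
      rw [d5]
      simp only [lgd, dir, map_add, map_smul, _root_.add_apply,
        ContinuousLinearMap.comp_apply, ContinuousLinearMap.flip_apply, Function.comp_apply,
        ContinuousLinearMap.coe_fst', ContinuousLinearMap.toSpanSingleton_apply, one_smul,
        ContinuousLinearMap.prod_apply, ContinuousLinearMap.coe_snd', e2,
        _root_.smul_apply]
      abel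
    show U w (lgd c0 N F (g w, s)) ∈ _
    rw [e1]
    exact Submodule.sub_mem _ m1 (Submodule.smul_mem _ _ m0)

omit [DecidableEq n] in
/-- the rank bound for the multivalued section `om (w, s) = U w (F (g w, s))`, where
`U' = U (N + κ)` and `g' = c g` -/
theorem hrk_of_cover {F om : ℂ × E → n → ℂ} {c0 κ w : ℂ} {s : E} {N : (n → ℂ) →L[ℂ] (n → ℂ)}
    {U : ℂ → (n → ℂ) →L[ℂ] (n → ℂ)} {g : ℂ → ℂ} (hF : DifferentiableAt ℂ F (g w, s))
    (hg : HasDerivAt g (c0 * g w) w) (hU : HasDerivAt U ((U w).comp N + κ • U w) w)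
    (hU0 : Function.Injective (U w)) (hom : om =ᶠ[𝓝 (w, s)] fun q => U q.1 (F (g q.1, q.2)))
    {ν : ℕ} (hrk : Module.finrank ℂ (Submodule.span ℂ {om (w, s)} ⊔
      LinearMap.range (fderiv ℂ om (w, s) : ℂ × E →ₗ[ℂ] n → ℂ) : Submodule ℂ (n → ℂ)) ≤ ν + 1)
    (e : Fin ν → E) (he : LinearIndependent ℂ (fam F e (g w, s))) :
    lgd c0 N F (g w, s) ∈ Submodule.span ℂ (Set.range (fam F e (g w, s))) :=
  hrk_of_cover_rel hF hg hU hU0 hom _ hrk
    (Submodule.mem_sup_left (Submodule.mem_span_singleton_self _))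
    (Submodule.mem_sup_right ⟨(1, 0), rfl⟩) e (fun i => Submodule.mem_sup_right ⟨(0, e i), rfl⟩) he

/-- RANK DROP with a bound on the dimension of the span of `F`, `c z ∂_z F + N F`, `∂_s F` -/
theorem rank_drop {F : ℂ × E → n → ℂ} {O : Set (ℂ × E)} (hO : IsOpen O) (hOc : IsPreconnected O)
    (hF : AnalyticOnNhd ℂ F O) {c0 : ℂ} (hc0 : c0 ≠ 0) {N A R : Matrix n n ℂ}
    (hN : IsNilpotent N) (hA : A * N = N * A) {ν : ℕ}
    (hrk : ∀ p ∈ O, p.1 ≠ 0 → ∃ S : Submodule ℂ (n → ℂ), Module.finrank ℂ S ≤ ν + 1 ∧ F p ∈ S ∧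
      (c0 * p.1) • fderiv ℂ F p (1, 0) + N *ᵥ F p ∈ S ∧ ∀ ξ : E, fderiv ℂ F p (0, ξ) ∈ S)
    (hne : ∃ p ∈ O, N *ᵥ F p ≠ 0 ∨ A *ᵥ F p ≠ 0) {s0 : E} (h0 : (0, s0) ∈ O)
    (hA0 : ∀ᶠ s in 𝓝 s0, A *ᵥ F (0, s) = 0) {c : E → ℝ}
    (hc : ∀ᶠ s in 𝓝 s0, (c s : ℂ) = star (F (0, s)) ⬝ᵥ R *ᵥ F (0, s)) (hpos : c s0 ≠ 0)
    (hR : ∀ᶠ s in 𝓝 s0, star (F (0, s)) ⬝ᵥ R *ᵥ N *ᵥ F (0, s) = 0)
    (L : Submodule ℂ E) (hL : ν ≤ Module.finrank ℂ L) :
    ∃ ξ ∈ L, ξ ≠ 0 ∧ lev (fun s => Real.log (c s)) s0 ξ = 0 := by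
  refine rank_drop' hO hOc hF hc0 hN hA (fun p hp hz e he => ?_) hne h0 hA0 hc hpos hR L hL
  obtain ⟨S, k1, k2, k3, k4⟩ := hrk p hp hz
  refine mem_span_of_finrank he LinearMap.id Function.injective_id S k1 (fun j => ?_) k3
  cases j with
  | none => exact k2
  | some i => exact k4 _

/-- Relative RANK DROP with a bound on the dimension of the span of `F`, `c z ∂_z F + N F`, `∂_s F` -/
theorem rank_drop_rel {F : ℂ × E → n → ℂ} {O : Set (ℂ × E)} (hO : IsOpen O) (hOc : IsPreconnected O)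
    (hF : AnalyticOnNhd ℂ F O) {c0 : ℂ} (hc0 : c0 ≠ 0) {N A R : Matrix n n ℂ}
    (hN : IsNilpotent N) (hA : A * N = N * A) {ν : ℕ} (L : Submodule ℂ E)
    (hrk : ∀ p ∈ O, p.1 ≠ 0 → ∃ S : Submodule ℂ (n → ℂ), Module.finrank ℂ S ≤ ν + 1 ∧ F p ∈ S ∧
      (c0 * p.1) • fderiv ℂ F p (1, 0) + N *ᵥ F p ∈ S ∧ ∀ ξ ∈ L, fderiv ℂ F p (0, ξ) ∈ S)
    (hne : ∃ p ∈ O, N *ᵥ F p ≠ 0 ∨ A *ᵥ F p ≠ 0) {s0 : E} (h0 : (0, s0) ∈ O)
    (hA0 : ∀ᶠ s in 𝓝 s0, A *ᵥ F (0, s) = 0) {c : E → ℝ}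
    (hc : ∀ᶠ s in 𝓝 s0, (c s : ℂ) = star (F (0, s)) ⬝ᵥ R *ᵥ F (0, s)) (hpos : c s0 ≠ 0)
    (hR : ∀ᶠ s in 𝓝 s0, star (F (0, s)) ⬝ᵥ R *ᵥ N *ᵥ F (0, s) = 0)
    (hL : ν ≤ Module.finrank ℂ L) :
    ∃ ξ ∈ L, ξ ≠ 0 ∧ lev (fun s => Real.log (c s)) s0 ξ = 0 := by
  refine rank_drop_rel' hO hOc hF hc0 hN hA L (fun p hp hz e hL he => ?_) hne h0 hA0 hc hpos hR hL
  obtain ⟨S, k1, k2, k3, k4⟩ := hrk p hp hz
  refine mem_span_of_finrank he LinearMap.id Function.injective_id S k1 (fun j => ?_) k3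
  cases j with
  | none => exact k2
  | some i => exact k4 _ (hL i)

end

end Pool.Agent.Lib.MP_5c318e_ag.R
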