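import Pool.Agent.Lib.MP_5c318e_ag.R.Ord

/-! Rank drop: the holomorphic core, and polarisation. -/

set_option autoImplicit false

namespace Pool.Agent.Lib.MP_5c318e_ag.R

open Filter Topology Metric
open scoped ComplexConjugate

noncomputable section

section core

variable {E V ι : Type*} [NormedAddCommGroup E] [NormedSpace ℂ E] [NormedAddCommGroup V]
  [NormedSpace ℂ V]

/-- the section and its tangential derivatives -/
def fam (F : ℂ × E → V) (e : ι → E) (p : ℂ × E) : Option ι → V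
  | none => F p
  | some i => dir (0, e i) F p

/-- the logarithmic derivative in the normal direction -/
def lgd (c : ℂ) (N : V →L[ℂ] V) (F : ℂ × E → V) (p : ℂ × E) : V :=
  (c * p.1) • dir (1, 0) F p + N (F p)

theorem dir_clm {X W : Type*} [NormedAddCommGroup X] [NormedSpace ℂ X] [NormedAddCommGroup W]
    [NormedSpace ℂ W] (A : V →L[ℂ] W) {F : X → V} {p v : X} (h : DifferentiableAt ℂ F p) :
    dir v (fun q => A (F q)) p = A (dir v F p) := by
  have h1 : fderiv ℂ (fun q => A (F q)) p = A.comp (fderiv ℂ F p) :=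
    (A.hasFDerivAt.comp p h.hasFDerivAt).fderiv
  rw [dir, h1]
  rfl

variable [CompleteSpace V] [Fintype ι]

theorem drop_core {F : ℂ × E → V} {O : Set (ℂ × E)} (hO : IsOpen O) (hF : AnalyticOnNhd ℂ F O)
    {s0 : E} (h0 : (0, s0) ∈ O) (c : ℂ) (N : V →L[ℂ] V)
    (hN : ∀ (k : ℕ) (v : V), (c * (k + 1 : ℕ)) • v + N v = 0 → v = 0) (e : ι → E)
    (π : V →L[ℂ] (Option ι → ℂ))
    (hinj : ∀ x : Option ι → ℂ, π (∑ j, x j • fam F e (0, s0) j) = 0 → x = 0)
    (hπ : ∀ᶠ s in 𝓝 s0, π (N (F (0, s))) = 0)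
    (hdep : ∀ p ∈ O, p.1 ≠ 0 → LinearIndependent ℂ (fam F e p) →
      lgd c N F p ∈ Submodule.span ℂ (Set.range (fam F e p))) :
    (∀ᶠ s in 𝓝 s0, N (F (0, s)) = 0) ∧ ∀ A : V →L[ℂ] V, (∀ v, A (N v) = N (A v)) →
      (∀ᶠ s in 𝓝 s0, A (F (0, s)) = 0) → ∀ᶠ p in 𝓝 ((0 : ℂ), s0), A (F p) = 0 := by
  classical
  have hfam : ∀ j, AnalyticOnNhd ℂ (fun p => fam F e p j) O := by
    intro j p hp
    cases j with
    | none => exact hF p hp
    | some i => exact dir_an (hF p hp)
  have hG : AnalyticOnNhd ℂ (lgd c N F) O := fun p hp =>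
    ((analyticAt_const.mul analyticAt_fst).smul (dir_an (hF p hp))).add
      ((N.analyticAt _).comp (hF p hp))
  let M : ℂ × E → (Option ι → ℂ) →L[ℂ] (Option ι → ℂ) := fun p =>
    ∑ j, ContinuousLinearMap.smulRightL ℂ (Option ι → ℂ) (Option ι → ℂ)
      (ContinuousLinearMap.proj j) (π (fam F e p j))
  have hM : ∀ p x, M p x = π (∑ j, x j • fam F e p j) := by
    intro p x
    simp [M]
  have hMa : AnalyticOnNhd ℂ M O := fun p hp =>
    Finset.analyticAt_fun_sum _ fun j _ =>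
      ((ContinuousLinearMap.smulRightL ℂ (Option ι → ℂ) (Option ι → ℂ)
        (ContinuousLinearMap.proj j)).analyticAt _).comp ((π.analyticAt _).comp (hfam j p hp))
  have hu : IsUnit (M (0, s0)) := by
    have h1 : Function.Injective (M (0, s0)) :=
      (injective_iff_map_eq_zero _).mpr fun x hx => hinj x (by rw [← hM, hx])
    have h2 : Function.Surjective (M (0, s0)) :=
      LinearMap.injective_iff_surjective.mp
        (show Function.Injective (M (0, s0) : (Option ι → ℂ) →ₗ[ℂ] (Option ι → ℂ)) from h1)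
    exact ContinuousLinearMap.isUnit_iff_bijective.mpr ⟨h1, h2⟩
  let a : ℂ × E → Option ι → ℂ := fun p => Ring.inverse (M p) (π (lgd c N F p))
  have haa : ∀ p ∈ O, IsUnit (M p) → AnalyticAt ℂ a p := by
    rintro p hp ⟨u, hu'⟩
    have h1 : AnalyticAt ℂ (fun q => Ring.inverse (M q)) p :=
      (analyticAt_inverse (𝕜 := ℂ) u).comp_of_eq (hMa p hp) hu'.symm
    exact ((ContinuousLinearMap.apply ℂ (Option ι → ℂ)).flip.analyticAt_bilinear _).comp₂ h1
      ((π.analyticAt _).comp (hG p hp))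
  have hinv : ∀ p, IsUnit (M p) → ∀ x, Ring.inverse (M p) (M p x) = x := by
    intro p hp x
    have := congrArg (fun T : (Option ι → ℂ) →L[ℂ] (Option ι → ℂ) => T x)
      (Ring.inverse_mul_cancel _ hp)
    simpa using this
  -- the open set on which the coefficients are holomorphic
  let O1 : Set (ℂ × E) := O ∩ M ⁻¹' {T | IsUnit T}
  have hO1 : IsOpen O1 := hMa.continuousOn.isOpen_inter_preimage hO Units.isOpen
  have h01 : (0, s0) ∈ O1 := ⟨h0, hu⟩
  have hne : ∀ p ∈ O1, p.1 ≠ 0 → lgd c N F p = ∑ j, a p j • fam F e p j := by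
    intro p hp hz
    have h1 : LinearIndependent ℂ (fam F e p) := by
      rw [Fintype.linearIndependent_iff]
      intro x hx j
      have h2 := hinv p hp.2 x
      rw [hM, hx, map_zero, map_zero] at h2
      exact (congrFun h2 j).symm
    obtain ⟨x, hx⟩ := (Submodule.mem_span_range_iff_exists_fun ℂ).mp (hdep p hp.1 hz h1)
    have h3 : a p = x := by
      show Ring.inverse (M p) (π (lgd c N F p)) = x
      rw [← hx, ← hM, hinv p hp.2]
    rw [h3, hx]
  have ha1 : ∀ j, AnalyticOnNhd ℂ (fun p => a p j) O1 := fun j p hp =>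
    ((ContinuousLinearMap.proj (R := ℂ) (φ := fun _ : Option ι => ℂ) j).analyticAt _).comp
      (haa p hp.1 hp.2)
  have heq : ∀ p ∈ O1, lgd c N F p = ∑ j, a p j • fam F e p j := by
    rintro ⟨z, s⟩ hp
    by_cases hz : z = 0
    · subst hz
      have c1 := (slice_an (hG _ hp.1)).continuousAt
      have c2 : AnalyticAt ℂ (fun q => ∑ j, a q j • fam F e q j) (0, s) :=
        Finset.analyticAt_fun_sum _ fun j _ => (ha1 j _ hp).smul (hfam j _ hp.1)
      have c3 := (slice_an c2).continuousAt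
      refine tendsto_nhds_unique_of_eventuallyEq (l := 𝓝[≠] (0 : ℂ))
        (c1.tendsto.mono_left nhdsWithin_le_nhds) (c3.tendsto.mono_left nhdsWithin_le_nhds) ?_
      filter_upwards [nhdsWithin_le_nhds (ev_slice hO1 hp), self_mem_nhdsWithin] with w h1 h2
      exact hne _ h1 h2
    · exact hne _ hp hz
  have hl0 : ∀ s, lgd c N F (0, s) = N (F (0, s)) := fun s => by simp [lgd]
  have ha0 : ∀ s, π (N (F (0, s))) = 0 → a (0, s) = 0 := fun s hs => by
    show Ring.inverse (M (0, s)) (π (lgd c N F (0, s))) = 0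
    rw [hl0, hs, map_zero]
  refine ⟨?_, fun A hA hA0 => ?_⟩
  · filter_upwards [hπ, ev_slice' hO1 h01] with s h1 h2
    rw [← hl0, heq _ h2, ha0 s h1]
    simp
  · have ev : ∀ᶠ p in 𝓝 ((0 : ℂ), s0),
        p ∈ O1 ∧ π (N (F (0, p.2))) = 0 ∧ A (F (0, p.2)) = 0 :=
      (hO1.eventually_mem h01).and
        ((continuous_snd.tendsto ((0 : ℂ), s0)).eventually (hπ.and hA0))
    obtain ⟨r, hr, hb⟩ := Metric.eventually_nhds_iff_ball.mp ev
    have hy : AnalyticOnNhd ℂ (fun p => A (F p)) (ball ((0 : ℂ), s0) r) := fun p hp =>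
      (A.analyticAt _).comp (hF p (hb p hp).1.1)
    have key := vanish isOpen_ball hy c N hN e (fun p => a p none) (fun i p => a p (some i))
      (fun p hp => ha1 none p (hb p hp).1) (fun i p hp => ha1 (some i) p (hb p hp).1)
      (fun s hs => congrFun (ha0 s (hb _ hs).2.1) none)
      (fun i s hs => congrFun (ha0 s (hb _ hs).2.1) (some i))
      (fun p hp => by
        have h1 := congrArg A (heq p (hb p hp).1)
        have hd := (hF p (hb p hp).1.1).differentiableAt
        rw [Fintype.sum_option] at h1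
        simp only [lgd, fam, map_add, map_smul, map_sum, hA] at h1
        simp only [dir_clm A hd]
        exact h1)
      (fun s hs => (hb _ hs).2.2)
    refine eventually_of_mem (ball_mem_nhds _ hr) ?_
    rintro ⟨z, s⟩ hp
    rw [← ball_prod_same] at hp hy key
    have h1 : AnalyticOnNhd ℂ (fun w => A (F (w, s))) (ball (0 : ℂ) r) := fun w hw =>
      slice_an (g := fun p => A (F p)) (hy _ ⟨hw, hp.2⟩)
    exact h1.eqOn_zero_of_preconnected_of_eventuallyEq_zero (convex_ball _ _).isPreconnected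
      (mem_ball_self hr) (key s ⟨mem_ball_self hr, hp.2⟩) hp.1

end core

section polar

theorem real_zero {g : ℂ → ℂ} (hg : DifferentiableOn ℂ g (ball 0 1))
    (h : ∀ x : ℝ, |x| < 1 → g x = 0) : ∀ z ∈ ball (0 : ℂ) 1, g z = 0 := by
  have ha : AnalyticOnNhd ℂ g (ball 0 1) := hg.analyticOnNhd isOpen_ball
  have ht : Tendsto (fun t : ℝ => (t : ℂ)) (𝓝[≠] 0) (𝓝[≠] (0 : ℂ)) := by
    refine tendsto_nhdsWithin_iff.2 ⟨?_, ?_⟩
    · simpa using (Complex.continuous_ofReal.tendsto 0).mono_left nhdsWithin_le_nhds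
    · filter_upwards [self_mem_nhdsWithin] with t ht
      simpa using ht
  have hfr : ∃ᶠ s in 𝓝[≠] (0 : ℂ), g s = 0 := by
    refine ht.frequently (Eventually.frequently ?_)
    have h3 : ∀ᶠ t : ℝ in 𝓝[≠] 0, t ∈ ball (0 : ℝ) 1 :=
      nhdsWithin_le_nhds (ball_mem_nhds _ one_pos)
    filter_upwards [h3] with t h3
    exact h t (by simpa using h3)
  exact fun z hz => ha.eqOn_zero_of_preconnected_of_frequently_eq_zero
    (convex_ball _ _).isPreconnected (mem_ball_self one_pos) hfr hz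

theorem polar_one {n : Type*} [Fintype n] {f g : ℂ → n → ℂ}
    (hf : ∀ z ∈ ball (0 : ℂ) 2, DifferentiableAt ℂ f z)
    (hg : ∀ z ∈ ball (0 : ℂ) 2, DifferentiableAt ℂ g z)
    (h : ∀ z ∈ ball (0 : ℂ) 2, star (f z) ⬝ᵥ g z = 0) : star (f 0) ⬝ᵥ g 1 = 0 := by
  have hm : ∀ a ∈ ball (0 : ℂ) 1, ∀ b ∈ ball (0 : ℂ) 1, ∀ u : ℂ, ‖u‖ = 1 →
      a + u * b ∈ ball (0 : ℂ) 2 := by
    intro a ha b hb u hu
    rw [mem_ball_zero_iff] at ha hb ⊢
    refine (norm_add_le _ _).trans_lt ?_
    rw [norm_mul, hu]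
    linarith
  let f' : ℂ → n → ℂ := star ∘ f ∘ conj
  have hf' : ∀ z ∈ ball (0 : ℂ) 2, DifferentiableAt ℂ f' z := fun z hz =>
    differentiableAt_star_conj_iff.mpr (hf _ (by simpa using hz))
  let Φ : ℂ × ℂ → ℂ := fun q => f' (q.1 + -Complex.I * q.2) ⬝ᵥ g (q.1 + Complex.I * q.2)
  have hΦ : ∀ a ∈ ball (0 : ℂ) 1, ∀ b ∈ ball (0 : ℂ) 1, DifferentiableAt ℂ Φ (a, b) := by
    intro a ha b hb
    have d1 : DifferentiableAt ℂ (fun q : ℂ × ℂ => f' (q.1 + -Complex.I * q.2)) (a, b) :=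
      (hf' _ (hm a ha b hb _ (by simp))).comp (a, b)
        (f := fun q : ℂ × ℂ => q.1 + -Complex.I * q.2) (by fun_prop)
    have d2 : DifferentiableAt ℂ (fun q : ℂ × ℂ => g (q.1 + Complex.I * q.2)) (a, b) :=
      (hg _ (hm a ha b hb _ (by simp))).comp (a, b)
        (f := fun q : ℂ × ℂ => q.1 + Complex.I * q.2) (by fun_prop)
    exact DifferentiableAt.fun_sum fun i _ =>
      (differentiableAt_pi.mp d1 i).mul (differentiableAt_pi.mp d2 i)
  have rb : ∀ x : ℝ, |x| < 1 → (x : ℂ) ∈ ball (0 : ℂ) 1 := fun x hx => by simpa using hx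
  have s1 : ∀ y : ℝ, |y| < 1 → ∀ a ∈ ball (0 : ℂ) 1, Φ (a, y) = 0 := by
    intro y hy
    refine real_zero (g := fun a => Φ (a, y)) (fun a ha =>
      ((hΦ a ha y (rb y hy)).comp a (f := fun a : ℂ => (a, (y : ℂ)))
        (by fun_prop)).differentiableWithinAt) fun x hx => ?_
    have := h _ (hm x (rb x hx) y (rb y hy) Complex.I (by simp))
    simpa [Φ, f'] using this
  have hh : (1 / 2 : ℂ) ∈ ball (0 : ℂ) 1 := by
    rw [mem_ball_zero_iff]
    norm_num
  have s2 := real_zero (g := fun b => Φ (1 / 2, b)) (fun b hb =>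
    ((hΦ _ hh b hb).comp b (f := fun b : ℂ => ((1 / 2 : ℂ), b))
      (by fun_prop)).differentiableWithinAt) (fun y hy => s1 y hy _ hh) (-Complex.I / 2) (by
      rw [mem_ball_zero_iff]
      norm_num)
  have e1 : (1 / 2 : ℂ) + -Complex.I * (-Complex.I / 2) = 0 := by
    linear_combination (1 / 2 : ℂ) * Complex.I_mul_I
  have e2 : (1 / 2 : ℂ) + Complex.I * (-Complex.I / 2) = 1 := by
    linear_combination (-1 / 2 : ℂ) * Complex.I_mul_I
  simp only [Φ, e1, e2] at s2
  simpa [f'] using s2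

/-- polarisation of a hermitian identity between holomorphic maps -/
theorem polar {E n : Type*} [NormedAddCommGroup E] [NormedSpace ℂ E] [Fintype n]
    {f g : E → n → ℂ} {s0 : E} (hf : AnalyticAt ℂ f s0) (hg : AnalyticAt ℂ g s0)
    (h : ∀ᶠ s in 𝓝 s0, star (f s) ⬝ᵥ g s = 0) :
    ∃ r > 0, ∀ s ∈ ball s0 r, ∀ t ∈ ball s0 r, star (f s) ⬝ᵥ g t = 0 := by
  obtain ⟨r, hr, hb⟩ := Metric.eventually_nhds_iff_ball.mp
    (hf.eventually_analyticAt.and (hg.eventually_analyticAt.and h))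
  refine ⟨r / 5, by positivity, fun s hs t ht => ?_⟩
  have hm : ∀ z ∈ ball (0 : ℂ) 2, s + z • (t - s) ∈ ball s0 r := by
    intro z hz
    rw [mem_ball_zero_iff] at hz
    rw [mem_ball_iff_norm] at hs ht ⊢
    have e : s + z • (t - s) - s0 = (s - s0) + z • ((t - s0) - (s - s0)) := by
      rw [sub_sub_sub_cancel_right]
      abel
    rw [e]
    refine (norm_add_le _ _).trans_lt ?_
    rw [norm_smul]
    have h1 := norm_sub_le (t - s0) (s - s0)
    have h2 := norm_nonneg (t - s0 - (s - s0))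
    nlinarith
  have := polar_one (f := fun z => f (s + z • (t - s))) (g := fun z => g (s + z • (t - s)))
    (fun z hz => (hb _ (hm z hz)).1.differentiableAt.comp z
      (f := fun z : ℂ => s + z • (t - s)) (by fun_prop))
    (fun z hz => (hb _ (hm z hz)).2.1.differentiableAt.comp z
      (f := fun z : ℂ => s + z • (t - s)) (by fun_prop))
    (fun z hz => (hb _ (hm z hz)).2.2)
  simpa using this

end polar

end

end Pool.Agent.Lib.MP_5c318e_ag.R
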