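import Mathlib

/-! Order of vanishing along a divisor with parameters: a singular first order equation with
nilpotent residue has no solution that vanishes on the divisor. -/

set_option autoImplicit false

namespace Pool.Agent.Lib.MP_5c318e_ag.R

open Filter Topology

noncomputable section

section dir

variable {X V : Type*} [NormedAddCommGroup X] [NormedSpace ℂ X] [NormedAddCommGroup V]
  [NormedSpace ℂ V]

/-- complex derivative in the direction `v` -/
def dir (v : X) (g : X → V) (p : X) : V := fderiv ℂ g p v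

theorem dir_congr {v p : X} {f g : X → V} (h : f =ᶠ[𝓝 p] g) : dir v f p = dir v g p := by
  rw [dir, dir, h.fderiv_eq]

variable [CompleteSpace V]

theorem dir_an {v p : X} {g : X → V} (h : AnalyticAt ℂ g p) : AnalyticAt ℂ (dir v g) p :=
  ((ContinuousLinearMap.apply ℂ V v).analyticAt _).comp h.fderiv

theorem dir_comm {v w p : X} {g : X → V} (h : AnalyticAt ℂ g p) :
    dir v (dir w g) p = dir w (dir v g) p := by
  have hd : DifferentiableAt ℂ (fderiv ℂ g) p := h.fderiv.differentiableAt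
  have key : ∀ a b : X, dir a (dir b g) p = fderiv ℂ (fderiv ℂ g) p a b := fun a b => by
    show fderiv ℂ (fun y => fderiv ℂ g y b) p a = _
    rw [fderiv_clm_apply hd (differentiableAt_const b)]
    simp
  rw [key, key]
  exact ((h.contDiffAt (n := 2)).isSymmSndFDerivAt (by simp)).eq v w

theorem iter_an {v : X} {g : X → V} {O : Set X} (h : AnalyticOnNhd ℂ g O) (j : ℕ) :
    AnalyticOnNhd ℂ ((dir v)^[j] g) O := by
  induction j with
  | zero => exact h
  | succ j ih =>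
    rw [Function.iterate_succ_apply']
    exact fun p hp => dir_an (ih p hp)

theorem iter_comm {v w : X} {g : X → V} {O : Set X} (hO : IsOpen O) (h : AnalyticOnNhd ℂ g O)
    (j : ℕ) : ∀ p ∈ O, (dir v)^[j] (dir w g) p = dir w ((dir v)^[j] g) p := by
  induction j with
  | zero => exact fun _ _ => rfl
  | succ j ih =>
    intro p hp
    rw [Function.iterate_succ_apply', Function.iterate_succ_apply',
      dir_congr (eventually_of_mem (hO.mem_nhds hp) ih), dir_comm (iter_an h j p hp)]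

end dir

section dv

variable {V : Type*} [NormedAddCommGroup V] [NormedSpace ℂ V]

/-- divisible by `z ^ k` at the origin -/
def Dv (k : ℕ) (f : ℂ → V) : Prop :=
  ∃ g : ℂ → V, AnalyticAt ℂ g 0 ∧ ∀ᶠ z in 𝓝 (0 : ℂ), f z = z ^ k • g z

theorem dv_iff_ord {k : ℕ} {f : ℂ → V} (hf : AnalyticAt ℂ f 0) :
    Dv k f ↔ (k : ℕ∞) ≤ analyticOrderAt f 0 := by
  rw [natCast_le_analyticOrderAt hf, Dv]
  simp

theorem dv_iff [CompleteSpace V] {k : ℕ} {f : ℂ → V} (hf : AnalyticAt ℂ f 0) :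
    Dv k f ↔ ∀ j < k, iteratedDeriv j f 0 = 0 := by
  rw [dv_iff_ord hf, natCast_le_analyticOrderAt_iff_iteratedDeriv_eq_zero hf]

theorem dv_one [CompleteSpace V] {f : ℂ → V} (hf : AnalyticAt ℂ f 0) (h0 : f 0 = 0) : Dv 1 f := by
  rw [dv_iff hf]
  intro j hj
  obtain rfl : j = 0 := by omega
  simpa using h0

theorem Dv.add {k : ℕ} {f g : ℂ → V} (hf : Dv k f) (hg : Dv k g) : Dv k fun z => f z + g z := by
  obtain ⟨f1, a1, e1⟩ := hf
  obtain ⟨g1, a2, e2⟩ := hg
  refine ⟨fun z => f1 z + g1 z, a1.add a2, ?_⟩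
  filter_upwards [e1, e2] with z h1 h2
  rw [h1, h2, smul_add]

theorem dv_sum {ι : Type*} (s : Finset ι) {k : ℕ} {f : ι → ℂ → V} (hf : ∀ i ∈ s, Dv k (f i)) :
    Dv k fun z => ∑ i ∈ s, f i z := by
  classical
  induction s using Finset.induction_on with
  | empty => exact ⟨fun _ => 0, analyticAt_const, by simp⟩
  | insert i s hi ih =>
    simp only [Finset.sum_insert hi]
    exact (hf i (Finset.mem_insert_self i s)).add
      (ih fun j hj => hf j (Finset.mem_insert_of_mem hj))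

theorem Dv.smul {k l : ℕ} {a : ℂ → ℂ} {f : ℂ → V} (ha : Dv l a) (hf : Dv k f) :
    Dv (k + l) fun z => a z • f z := by
  obtain ⟨a1, b1, e1⟩ := ha
  obtain ⟨f1, b2, e2⟩ := hf
  refine ⟨fun z => a1 z • f1 z, b1.smul b2, ?_⟩
  filter_upwards [e1, e2] with z h1 h2
  rw [h1, h2, smul_smul, smul_smul, smul_eq_mul, pow_add]
  congr 1
  ring

theorem Dv.congr {k : ℕ} {f g : ℂ → V} (hf : Dv k f) (h : f =ᶠ[𝓝 0] g) : Dv k g := by
  obtain ⟨f1, a1, e1⟩ := hf
  refine ⟨f1, a1, ?_⟩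
  filter_upwards [e1, h] with z h1 h2
  rw [← h2, h1]

/-- the one variable step -/
theorem dv_step [CompleteSpace V] {k : ℕ} {f : ℂ → V} (c : ℂ) (N : V →L[ℂ] V)
    (hN : ∀ v : V, (c * (k + 1 : ℕ)) • v + N v = 0 → v = 0) (hf : Dv (k + 1) f)
    (hl : Dv (k + 2) fun z => (c * z) • deriv f z + N (f z)) : Dv (k + 2) f := by
  obtain ⟨h, ah, eh⟩ := hf
  obtain ⟨g, ag, eg⟩ := hl
  have ed : ∀ᶠ z in 𝓝 (0 : ℂ),
      deriv f z = z ^ (k + 1) • deriv h z + (((k + 1 : ℕ) : ℂ) * z ^ k) • h z := by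
    filter_upwards [eh.eventually_nhds, ah.eventually_analyticAt] with z h1 h2
    have h3 : f =ᶠ[𝓝 z] fun w => w ^ (k + 1) • h w := h1
    rw [h3.deriv_eq]
    have h4 := ((hasDerivAt_pow (k + 1) z).fun_smul h2.differentiableAt.hasDerivAt).deriv
    simpa using h4
  let m : ℂ → V := fun z => (c * (k + 1 : ℕ)) • h z + N (h z) + (c * z) • deriv h z - z • g z
  have am : AnalyticAt ℂ m 0 :=
    (((analyticAt_const.smul ah).add ((N.analyticAt _).comp ah)).add
      ((analyticAt_const.mul analyticAt_id).smul ah.deriv)).sub (analyticAt_id.smul ag)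
  have em : ∀ᶠ z in 𝓝[≠] (0 : ℂ), m z = 0 := by
    filter_upwards [nhdsWithin_le_nhds eh, nhdsWithin_le_nhds eg, nhdsWithin_le_nhds ed,
      self_mem_nhdsWithin] with z h1 h2 h3 h4
    have h5 : z ^ (k + 1) ≠ 0 := pow_ne_zero _ h4
    rw [h1, h3, map_smul] at h2
    have h6 : z ^ (k + 1) • m z = 0 := by
      have : z ^ (k + 1) • m z = (c * z) • (z ^ (k + 1) • deriv h z +
          (((k + 1 : ℕ) : ℂ) * z ^ k) • h z) + z ^ (k + 1) • N (h z) - z ^ (k + 2) • g z := by
        simp only [m]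
        match_scalars <;> ring
      rw [this, h2, sub_self]
    exact (smul_eq_zero.mp h6).resolve_left h5
  have m0 : m 0 = 0 :=
    tendsto_nhds_unique (am.continuousAt.tendsto.mono_left nhdsWithin_le_nhds)
      (tendsto_const_nhds.congr' (em.mono fun _ h => h.symm))
  have h0 : h 0 = 0 := hN _ (by simpa [m] using m0)
  obtain ⟨h1, a1, e1⟩ := dv_one ah h0
  refine ⟨h1, a1, ?_⟩
  filter_upwards [eh, e1] with z k1 k2
  rw [k1, k2, smul_smul, ← pow_add]

end dv

section par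

variable {E V : Type*} [NormedAddCommGroup E] [NormedSpace ℂ E] [NormedAddCommGroup V]
  [NormedSpace ℂ V]

theorem slice_an {g : ℂ × E → V} {z : ℂ} {s : E} (h : AnalyticAt ℂ g (z, s)) :
    AnalyticAt ℂ (fun w => g (w, s)) z :=
  h.comp_of_eq (analyticAt_id.prod analyticAt_const) rfl

theorem slice_der {g : ℂ × E → V} {z : ℂ} {s : E} (h : DifferentiableAt ℂ g (z, s)) :
    HasDerivAt (fun w => g (w, s)) (dir (1, 0) g (z, s)) z :=
  h.hasFDerivAt.comp_hasDerivAt z ((hasDerivAt_id z).prodMk (hasDerivAt_const z s))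

theorem slice_fder {g : ℂ × E → V} {z : ℂ} {s : E} (h : DifferentiableAt ℂ g (z, s)) (e : E) :
    fderiv ℂ (fun t => g (z, t)) s e = dir (0, e) g (z, s) := by
  have h1 := (h.hasFDerivAt.comp s (hasFDerivAt_prodMk_right z s)).fderiv
  have h2 : fderiv ℂ (fun t => g (z, t)) s = _ := h1
  rw [h2]
  rfl

omit [NormedSpace ℂ E] in
theorem ev_slice {O : Set (ℂ × E)} (hO : IsOpen O) {z : ℂ} {s : E} (h : (z, s) ∈ O) :
    ∀ᶠ w in 𝓝 z, (w, s) ∈ O :=
  (continuous_id.prodMk continuous_const).continuousAt.eventually (hO.mem_nhds h)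

omit [NormedSpace ℂ E] in
theorem ev_slice' {O : Set (ℂ × E)} (hO : IsOpen O) {z : ℂ} {s : E} (h : (z, s) ∈ O) :
    ∀ᶠ t in 𝓝 s, (z, t) ∈ O :=
  (continuous_const.prodMk continuous_id).continuousAt.eventually (hO.mem_nhds h)

variable [CompleteSpace V]

theorem slice_iter {g : ℂ × E → V} {O : Set (ℂ × E)} (hO : IsOpen O) (h : AnalyticOnNhd ℂ g O)
    (s : E) (j : ℕ) : ∀ z, (z, s) ∈ O →
      iteratedDeriv j (fun w => g (w, s)) z = (dir (1, 0))^[j] g (z, s) := by
  induction j with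
  | zero => exact fun _ _ => rfl
  | succ j ih =>
    intro z hz
    have e : iteratedDeriv j (fun w => g (w, s)) =ᶠ[𝓝 z] fun w => (dir (1, 0))^[j] g (w, s) :=
      (ev_slice hO hz).mono ih
    rw [iteratedDeriv_succ, e.deriv_eq, Function.iterate_succ_apply']
    exact (slice_der (iter_an h j _ hz).differentiableAt).deriv

/-- tangential derivatives keep the order -/
theorem dv_dir {g : ℂ × E → V} {O : Set (ℂ × E)} (hO : IsOpen O) (h : AnalyticOnNhd ℂ g O) {k : ℕ}
    (hk : ∀ s, (0, s) ∈ O → Dv k fun w => g (w, s)) (e : E) :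
    ∀ s, (0, s) ∈ O → Dv k fun w => dir (0, e) g (w, s) := by
  intro s hs
  have h' : AnalyticOnNhd ℂ (dir (0, e) g) O := fun p hp => dir_an (h p hp)
  rw [dv_iff (slice_an (h' _ hs))]
  intro j hj
  rw [slice_iter hO h' s j 0 hs, iter_comm hO h j _ hs,
    ← slice_fder (iter_an h j _ hs).differentiableAt]
  have e0 : (fun t => (dir (1, 0))^[j] g (0, t)) =ᶠ[𝓝 s] fun _ => 0 := by
    filter_upwards [ev_slice' hO hs] with t ht
    rw [← slice_iter hO h t j 0 ht]
    exact (dv_iff (slice_an (h _ ht))).mp (hk t ht) j hj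
  rw [e0.fderiv_eq]
  simp

/-- a solution of `c z ∂_z y + N y = a₀ y + ∑ aᵢ ∂ᵢ y` with `a = O(z)` that vanishes on `z = 0`
vanishes to infinite order -/
theorem vanish {ι : Type*} [Fintype ι] {y : ℂ × E → V} {O : Set (ℂ × E)} (hO : IsOpen O)
    (hy : AnalyticOnNhd ℂ y O) (c : ℂ) (N : V →L[ℂ] V)
    (hN : ∀ (k : ℕ) (v : V), (c * (k + 1 : ℕ)) • v + N v = 0 → v = 0)
    (e : ι → E) (a0 : ℂ × E → ℂ) (a : ι → ℂ × E → ℂ) (ha0 : AnalyticOnNhd ℂ a0 O)
    (ha : ∀ i, AnalyticOnNhd ℂ (a i) O) (z0 : ∀ s, (0, s) ∈ O → a0 (0, s) = 0)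
    (z1 : ∀ i s, (0, s) ∈ O → a i (0, s) = 0)
    (heq : ∀ p ∈ O, (c * p.1) • dir (1, 0) y p + N (y p) =
      a0 p • y p + ∑ i, a i p • dir (0, e i) y p)
    (hz : ∀ s, (0, s) ∈ O → y (0, s) = 0) :
    ∀ s, (0, s) ∈ O → ∀ᶠ w in 𝓝 (0 : ℂ), y (w, s) = 0 := by
  have key : ∀ k : ℕ, ∀ s, (0, s) ∈ O → Dv (k + 1) fun w => y (w, s) := by
    intro k
    induction k with
    | zero => exact fun s hs => dv_one (slice_an (hy _ hs)) (hz s hs)
    | succ k ih =>
      intro s hs
      refine dv_step c N (hN k) (ih s hs) ?_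
      have r1 : Dv (k + 1 + 1) fun w => a0 (w, s) • y (w, s) +
          ∑ i, a i (w, s) • dir (0, e i) y (w, s) :=
        ((dv_one (slice_an (ha0 _ hs)) (z0 s hs)).smul (ih s hs)).add (dv_sum _ fun i _ =>
          (dv_one (slice_an (ha i _ hs)) (z1 i s hs)).smul (dv_dir hO hy ih (e i) s hs))
      refine r1.congr ?_
      filter_upwards [ev_slice hO hs] with w hw
      rw [← heq _ hw, (slice_der (hy _ hw).differentiableAt).deriv]
  intro s hs
  have h1 := slice_an (hy _ hs)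
  rw [← analyticOrderAt_eq_top]
  by_contra hne
  obtain ⟨n, hn⟩ := ENat.ne_top_iff_exists.mp hne
  have h2 := (dv_iff_ord h1).mp (key n s hs)
  rw [← hn] at h2
  have : n + 1 ≤ n := by exact_mod_cast h2
  omega

end par

end

end Pool.Agent.Lib.MP_5c318e_ag.R
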